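import Mathlib
import Pool.Agent.U409.OA.Stm3

/-!
# Project OA, package CHEB: a determinant of Chebyshev polynomials
-/

set_option autoImplicit false

open Polynomial

namespace Pool.Agent.U744.OA

/-- monic Chebyshev polynomials of the second kind -/
noncomputable def CHEB_p : ℕ → ℂ[X]
  | 0 => 1
  | 1 => X
  | (n + 2) => X * CHEB_p (n + 1) - CHEB_p n

lemma CHEB_two (n : ℕ) : CHEB_p (n + 2) = X * CHEB_p (n + 1) - CHEB_p n := by
  rw [CHEB_p]

lemma CHEB_aux (n : ℕ) : ((CHEB_p n).Monic ∧ (CHEB_p n).natDegree = n) ∧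
    ((CHEB_p (n + 1)).Monic ∧ (CHEB_p (n + 1)).natDegree = n + 1) := by
  induction n with
  | zero =>
    refine ⟨⟨?_, ?_⟩, ?_, ?_⟩
    · rw [CHEB_p]; exact monic_one
    · rw [CHEB_p]; exact natDegree_one
    · show (CHEB_p 1).Monic
      rw [CHEB_p]; exact monic_X
    · show (CHEB_p 1).natDegree = 1
      rw [CHEB_p]; exact natDegree_X
  | succ n ih =>
    obtain ⟨⟨h1, h2⟩, h3, h4⟩ := ih
    refine ⟨⟨h3, h4⟩, ?_⟩
    have h5 : (X * CHEB_p (n + 1)).Monic := monic_X.mul h3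
    have h6 : (X * CHEB_p (n + 1)).natDegree = n + 2 := by
      rw [monic_X.natDegree_mul h3, natDegree_X, h4]
      ring
    have h7 : (CHEB_p n).natDegree < (X * CHEB_p (n + 1)).natDegree := by
      rw [h6, h2]; omega
    constructor
    · show (CHEB_p (n + 2)).Monic
      rw [CHEB_two]
      exact h5.sub_of_left (degree_lt_degree h7)
    · show (CHEB_p (n + 2)).natDegree = n + 2
      rw [CHEB_two, natDegree_sub_eq_left_of_natDegree_lt h7, h6]

lemma CHEB_eval {x : ℂ} (hx : x ≠ 0) (n : ℕ) :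
    x ^ (n + 1) - x⁻¹ ^ (n + 1) = (x - x⁻¹) * (CHEB_p n).eval (x + x⁻¹) ∧
    x ^ (n + 2) - x⁻¹ ^ (n + 2) = (x - x⁻¹) * (CHEB_p (n + 1)).eval (x + x⁻¹) := by
  induction n with
  | zero =>
    constructor
    · rw [CHEB_p]; simp
    · show _ = (x - x⁻¹) * (CHEB_p 1).eval (x + x⁻¹)
      rw [CHEB_p]; simp only [eval_X]; ring
  | succ n ih =>
    refine ⟨ih.2, ?_⟩
    show x ^ (n + 3) - x⁻¹ ^ (n + 3) = (x - x⁻¹) * (CHEB_p (n + 2)).eval (x + x⁻¹)
    rw [CHEB_two, eval_sub, eval_mul, eval_X]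
    have e : (x - x⁻¹) * ((x + x⁻¹) * (CHEB_p (n + 1)).eval (x + x⁻¹) - (CHEB_p n).eval (x + x⁻¹)) =
        (x + x⁻¹) * ((x - x⁻¹) * (CHEB_p (n + 1)).eval (x + x⁻¹)) -
          (x - x⁻¹) * (CHEB_p n).eval (x + x⁻¹) := by ring
    rw [e, ← ih.1, ← ih.2]
    have h1 : x * x⁻¹ = 1 := mul_inv_cancel₀ hx
    linear_combination (x⁻¹ ^ (n + 1) - x ^ (n + 1)) * h1

theorem t_CHEB : Pool.Agent.U409.OA.S_CHEB := by
  intro r x hx
  have h1 : (Matrix.of fun i k : Fin r => x k ^ ((i : ℕ) + 1) - (x k)⁻¹ ^ ((i : ℕ) + 1)) =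
      Matrix.of fun i k : Fin r => (x k - (x k)⁻¹) *
        (Matrix.of fun k i : Fin r => (CHEB_p (i : ℕ)).eval (x k + (x k)⁻¹)).transpose i k := by
    ext i k
    rw [Matrix.of_apply, Matrix.of_apply, Matrix.transpose_apply, Matrix.of_apply]
    exact (CHEB_eval (hx k) i).1
  rw [h1, Matrix.det_mul_row, Matrix.det_transpose]
  congr 1
  have h2 := Matrix.det_eval_matrixOfPolynomials_eq_det_vandermonde (fun k : Fin r => x k + (x k)⁻¹)
    (fun i : Fin r => CHEB_p (i : ℕ)) (fun i => (CHEB_aux i).1.2) (fun i => (CHEB_aux i).1.1)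
  rw [← h2, Matrix.det_vandermonde]

end Pool.Agent.U744.OA
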